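import Pool.Agent.W558.WT.Stms
import Pool.Agent.W349.WD.Sum

set_option autoImplicit false
set_option linter.unusedVariables false
set_option linter.unusedSimpArgs false
set_option linter.unusedSectionVars false

universe u

open Polynomial Pool.Agent.W558 Pool.Agent.W349.WD.Sum

namespace Pool.Agent.W32.WT

section lt

variable {k K : Type u} [Field k] [Field K] [Algebra k K] {A : Subalgebra k K} {κ : Type u}
  [Field κ] [Algebra k κ] {φ : A →ₐ[k] κ} {I : Type} {x : I → K}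

lemma zmem (hx : ∀ i, x i ∈ A) {i : I} {m : ℤ} (h : 0 ≤ m ∨ (x i)⁻¹ ∈ A) : x i ^ m ∈ A := by
  rcases le_or_gt 0 m with h0 | h0
  · obtain ⟨n, rfl⟩ := Int.eq_ofNat_of_zero_le h0
    rw [zpow_natCast]
    exact A.pow_mem (hx i) n
  · have h1 : (x i)⁻¹ ∈ A := h.resolve_left (not_le.mpr h0)
    obtain ⟨n, hn⟩ := Int.eq_ofNat_of_zero_le (by omega : 0 ≤ -m)
    have : m = -(n : ℤ) := by omega
    rw [this, zpow_neg, zpow_natCast, ← inv_pow]
    exact A.pow_mem h1 n

lemma zmem_prod (hx : ∀ i, x i ∈ A) (s : Finset I) {m : I → ℤ}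
    (h : ∀ i, 0 ≤ m i ∨ (x i)⁻¹ ∈ A) : ∏ i ∈ s, x i ^ m i ∈ A :=
  A.prod_mem fun i _ => zmem hx (h i)

lemma D_zpow (v : LT φ x) (hx : ∀ i, x i ∈ A) (hx0 : ∀ i, x i ≠ 0) (i : I) (m : ℤ)
    (h : 0 ≤ m ∨ (x i)⁻¹ ∈ A) (hm : x i ^ m ∈ A) :
    v.D.D ⟨x i ^ m, hm⟩ = φ ⟨x i ^ m, hm⟩ * ((m : κ) * v.e i) := by
  rcases le_or_gt 0 m with h0 | h0
  · obtain ⟨n, rfl⟩ := Int.eq_ofNat_of_zero_le h0
    have e1 : (⟨x i ^ (n : ℤ), hm⟩ : A) = (⟨x i, hx i⟩ : A) ^ n := by
      apply Subtype.ext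
      simp
    rw [e1, D_pow v hx]
    push_cast
    rfl
  · obtain ⟨n, hn⟩ := Int.eq_ofNat_of_zero_le (by omega : 0 ≤ -m)
    have hmn : m = -(n : ℤ) := by omega
    have e1 : (⟨x i ^ m, hm⟩ : A) * (⟨x i, hx i⟩ : A) ^ n = 1 := by
      apply Subtype.ext
      show x i ^ m * x i ^ n = 1
      rw [hmn, zpow_neg, zpow_natCast]
      exact inv_mul_cancel₀ (pow_ne_zero n (hx0 i))
    have e2 := v.D.leib (⟨x i ^ m, hm⟩ : A) ((⟨x i, hx i⟩ : A) ^ n)
    rw [e1, v.D.D_one, D_pow v hx] at e2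
    have e3 : φ ⟨x i ^ m, hm⟩ * φ ((⟨x i, hx i⟩ : A) ^ n) = 1 := by
      rw [← map_mul, e1, map_one]
    have e4 : φ ((⟨x i, hx i⟩ : A) ^ n) ≠ 0 := right_ne_zero_of_mul_eq_one e3
    have e5 : (m : κ) = -(n : κ) := by rw [hmn]; push_cast; rfl
    rw [e5]
    apply mul_left_cancel₀ e4
    linear_combination -e2

lemma D_zprod (v : LT φ x) (hx : ∀ i, x i ∈ A) (hx0 : ∀ i, x i ≠ 0) {m : I → ℤ}
    (h : ∀ i, 0 ≤ m i ∨ (x i)⁻¹ ∈ A) (s : Finset I) : ∀ (hm : ∏ i ∈ s, x i ^ m i ∈ A),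
    v.D.D ⟨∏ i ∈ s, x i ^ m i, hm⟩ = φ ⟨∏ i ∈ s, x i ^ m i, hm⟩ * ∑ i ∈ s, (m i : κ) * v.e i := by
  classical
  induction s using Finset.induction_on with
  | empty =>
    intro hm
    have : (⟨∏ i ∈ (∅ : Finset I), x i ^ m i, hm⟩ : A) = 1 := by
      apply Subtype.ext; simp
    rw [this, v.D.D_one]
    simp
  | insert a s ha ih =>
    intro hm
    have e1 : (⟨∏ i ∈ insert a s, x i ^ m i, hm⟩ : A) =
        ⟨x a ^ m a, zmem hx (h a)⟩ * ⟨∏ i ∈ s, x i ^ m i, zmem_prod hx s h⟩ := by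
      apply Subtype.ext
      exact Finset.prod_insert ha
    rw [e1, v.D.leib, ih, D_zpow v hx hx0 a (m a) (h a), map_mul, Finset.sum_insert ha]
    ring

/-- combination of logarithmic tangent vectors -/
def lcomb (c d : κ) (v w : LT φ x) : LT φ x where
  D := TV.comb c d v.D w.D
  e := fun i => c * v.e i + d * w.e i
  hx := by
    intro i h
    rw [TV.comb_D, v.hx i h, w.hx i h]
    ring

lemma om_lcomb [Fintype I] (c d : κ) (v w : LT φ x) (n : I → ℤ) {h : K} (hh : h ∈ A) :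
    om (lcomb c d v w) n hh = c * om v n hh + d * om w n hh := by
  unfold om
  show (TV.comb c d v.D w.D).D ⟨h, hh⟩ + φ ⟨h, hh⟩ * ∑ i, (n i : κ) * (c * v.e i + d * w.e i) = _
  rw [TV.comb_D]
  have e1 : ∑ i, (n i : κ) * (c * v.e i + d * w.e i) =
      c * ∑ i, (n i : κ) * v.e i + d * ∑ i, (n i : κ) * w.e i := by
    rw [Finset.mul_sum, Finset.mul_sum, ← Finset.sum_add_distrib]
    refine Finset.sum_congr rfl fun i _ => by ring
  rw [e1]
  ring

/-- the logarithmic form of `c * x ^ (n - n') * h` -/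
lemma om_term [Fintype I] (v : LT φ x) (hx : ∀ i, x i ∈ A) (hx0 : ∀ i, x i ≠ 0) {n n' : I → ℤ}
    (h : ∀ i, 0 ≤ n i - n' i ∨ (x i)⁻¹ ∈ A) {g : K} (hg : g ∈ A)
    (hm : ∏ i, x i ^ (n i - n' i) ∈ A) (c : ℕ) :
    v.D.D ((c : A) * ((⟨∏ i, x i ^ (n i - n' i), hm⟩ : A) * ⟨g, hg⟩)) +
      φ ((c : A) * ((⟨∏ i, x i ^ (n i - n' i), hm⟩ : A) * ⟨g, hg⟩)) * ∑ i, (n' i : κ) * v.e i =
      (c : κ) * (φ ⟨∏ i, x i ^ (n i - n' i), hm⟩ * om v n hg) := by
  have e0 : (c : A) * ((⟨∏ i, x i ^ (n i - n' i), hm⟩ : A) * ⟨g, hg⟩) =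
      c • ((⟨∏ i, x i ^ (n i - n' i), hm⟩ : A) * ⟨g, hg⟩) := by rw [nsmul_eq_mul]
  rw [e0, map_nsmul, map_nsmul, v.D.leib, map_mul, D_zprod v hx hx0 h, nsmul_eq_mul, nsmul_eq_mul]
  unfold om
  have e1 : ∑ i, (n i : κ) * v.e i = ∑ i, ((n i - n' i : ℤ) : κ) * v.e i + ∑ i, (n' i : κ) * v.e i := by
    rw [← Finset.sum_add_distrib]
    refine Finset.sum_congr rfl fun i _ => ?_
    push_cast
    ring
  rw [e1]
  ring

end lt

lemma zc_eq (p : ℕ) [Fact p.Prime] (L : Type u) [Field L] [CharP L p] (c : ZMod p) :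
    zc p L c = ((c.val : ℕ) : L) := by
  unfold zc
  rw [ZMod.castHom_apply, ZMod.natCast_val]

lemma zc_map (p : ℕ) [Fact p.Prime] (L K : Type u) [Field L] [Field K] [Algebra L K] [CharP L p]
    [CharP K p] (c : ZMod p) : algebraMap L K (zc p L c) = zc p K c := by
  rw [zc_eq, zc_eq, map_natCast]

lemma zc_pow (p : ℕ) [Fact p.Prime] (L : Type u) [Field L] [CharP L p] (c : ZMod p) :
    zc p L c ^ p = zc p L c := by
  rw [← map_pow, ZMod.pow_card]

section tw

variable {k L K : Type u} [Field k] [Field L] [Field K]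
  [Algebra k L] [Algebra k K] [Algebra L K] [IsScalarTower k L K]
  {T I T1 I1 ι : Type} [Fintype I] [Fintype I1] [Fintype ι]
  {M : LM (⊥ : Subalgebra k L) ⊤ T I} {f : ι → L} {n : ι → I → ℤ} {a h : T → ι → L}
  {M1 : LM (⊥ : Subalgebra k K) ⊤ T1 I1} {π : T1 → T} {Θ : I1 → I → ℤ}

/-- local comparison -/
def lec (M : LM (⊥ : Subalgebra k L) ⊤ T I) (n : ι → I → ℤ) (t : T) (j l : ι) : Prop :=
  ∀ i, n j i ≤ n l i ∨ (M.x t i)⁻¹ ∈ M.A t

lemma lec_trans {t : T} {a b c : ι} (h1 : lec M n t a b) (h2 : lec M n t b c) : lec M n t a c := by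
  intro i
  rcases h1 i with h3 | h3
  · rcases h2 i with h4 | h4
    · exact Or.inl (h3.trans h4)
    · exact Or.inr h4
  · exact Or.inr h3

/-- the inverse of a factor of an invertible monomial is regular -/
lemma inv_mem (ho : Ovr M M1 π Θ) (t : T1) (i1 : I1) (i : I) (hΘ : 0 < Θ i1 i)
    (hi : (M.x (π t) i)⁻¹ ∈ M.A (π t)) : (M1.x t i1)⁻¹ ∈ M1.A t := by
  classical
  have h1 := ho.le t _ hi
  rw [map_inv₀, ho.x] at h1
  have h2 : (M1.x t i1)⁻¹ = (∏ i', M1.x t i' ^ Θ i' i)⁻¹ *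
      ∏ i', M1.x t i' ^ (Θ i' i - if i' = i1 then 1 else 0) := by
    have h3 : ∏ i', M1.x t i' ^ (Θ i' i - if i' = i1 then 1 else 0) =
        (∏ i', M1.x t i' ^ Θ i' i) * (M1.x t i1)⁻¹ := by
      have h4 : ∀ i', M1.x t i' ^ (Θ i' i - if i' = i1 then 1 else 0) =
          M1.x t i' ^ Θ i' i * (if i' = i1 then (M1.x t i1)⁻¹ else 1) := by
        intro i'
        by_cases h5 : i' = i1
        · rw [if_pos h5, if_pos h5, zpow_sub₀ (M1.x0 t i'), zpow_one, h5, div_eq_mul_inv]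
        · rw [if_neg h5, if_neg h5, sub_zero, mul_one]
      rw [Finset.prod_congr rfl fun i' _ => h4 i', Finset.prod_mul_distrib,
        Finset.prod_ite_eq' Finset.univ i1]
      simp
    rw [h3, ← mul_assoc, inv_mul_cancel₀, one_mul]
    exact Finset.prod_ne_zero_iff.2 fun i' _ => zpow_ne_zero _ (M1.x0 t i')
  rw [h2]
  refine (M1.A t).mul_mem h1 (zmem_prod (M1.xA t) _ fun i' => Or.inl ?_)
  by_cases h5 : i' = i1
  · rw [if_pos h5, h5]; omega
  · rw [if_neg h5]; have := ho.Θ0 i' i; omega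

/-- pull-back of the comparison -/
lemma cmp_pull (ho : Ovr M M1 π Θ) (t : T1) {j l : ι} (hjl : lec M n (π t) j l) (i1 : I1) :
    ∑ i, Θ i1 i * n j i ≤ ∑ i, Θ i1 i * n l i ∨ (M1.x t i1)⁻¹ ∈ M1.A t := by
  by_cases hi1 : (M1.x t i1)⁻¹ ∈ M1.A t
  · exact Or.inr hi1
  · left
    refine Finset.sum_le_sum fun i _ => ?_
    rcases eq_or_lt_of_le (ho.Θ0 i1 i) with h0 | h0
    · rw [← h0, zero_mul, zero_mul]
    · rcases hjl i with h1 | h1
      · exact mul_le_mul_of_nonneg_left h1 h0.le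
      · exact absurd (inv_mem ho t i1 i h0 h1) hi1

/-- the monomials -/
lemma mon_pull (ho : Ovr M M1 π Θ) (t : T1) (m : I → ℤ) :
    algebraMap L K (∏ i, M.x (π t) i ^ m i) = ∏ i1, M1.x t i1 ^ (∑ i, Θ i1 i * m i) := by
  have h1 : ∀ i, algebraMap L K (M.x (π t) i ^ m i) = ∏ i1, M1.x t i1 ^ (Θ i1 i * m i) := by
    intro i
    rw [map_zpow₀, ho.x, ← Finset.prod_zpow]
    apply Finset.prod_congr rfl
    intro i' _
    rw [← zpow_mul]
  rw [map_prod, Finset.prod_congr rfl fun i _ => h1 i, Finset.prod_comm]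
  apply Finset.prod_congr rfl
  intro i' _
  rw [zpow_sum' (M1.x0 t i')]

/-- a zero of `x1` is a zero of `x` -/
lemma zero_pull (ho : Ovr M M1 π Θ) (t : T1) {κ : Type u} [Field κ] [Algebra k κ]
    (φ' : M1.A t →ₐ[k] κ) (i1 : I1) (i : I) (hΘ : 0 < Θ i1 i)
    (h0 : φ' ⟨M1.x t i1, M1.xA t i1⟩ = 0) :
    φ' ⟨algebraMap L K (M.x (π t) i), ho.le t _ (M.xA (π t) i)⟩ = 0 := by
  have h1 : (⟨algebraMap L K (M.x (π t) i), ho.le t _ (M.xA (π t) i)⟩ : M1.A t) =
      ∏ i', (⟨M1.x t i', M1.xA t i'⟩ : M1.A t) ^ (Θ i' i).toNat := by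
    apply Subtype.ext
    change algebraMap L K (M.x (π t) i) =
      (M1.A t).val (∏ i', (⟨M1.x t i', M1.xA t i'⟩ : M1.A t) ^ (Θ i' i).toNat)
    rw [map_prod, ho.x]
    refine Finset.prod_congr rfl fun i' _ => ?_
    change M1.x t i' ^ Θ i' i = M1.x t i' ^ (Θ i' i).toNat
    rw [← zpow_natCast, Int.toNat_of_nonneg (ho.Θ0 i' i)]
  rw [h1, map_prod]
  refine Finset.prod_eq_zero (Finset.mem_univ i1) ?_
  rw [map_pow, h0, zero_pow (by omega)]

/-- the logarithmic forms agree -/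
lemma om_pull (ho : Ovr M M1 π Θ) (t : T1) {κ : Type u} [Field κ] [Algebra k κ]
    {φ' : M1.A t →ₐ[k] κ} {v : LT (φ'.comp (ci (ho.le t))) (M.x (π t))} {v' : LT φ' (M1.x t)}
    (hw1 : ∀ a (ha : a ∈ M.A (π t)), v'.D.D ⟨algebraMap L K a, ho.le t a ha⟩ = v.D.D ⟨a, ha⟩)
    (hw2 : ∀ i, ∑ i', (Θ i' i : κ) * v'.e i' = v.e i) (m : I → ℤ) {g : L}
    (hg : g ∈ M.A (π t)) :
    om v' (fun i1 => ∑ i, Θ i1 i * m i) (ho.le t g hg) = om v m hg := by
  unfold om
  have h1 : ∑ i1, ((∑ i, Θ i1 i * m i : ℤ) : κ) * v'.e i1 = ∑ i, (m i : κ) * v.e i := by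
    have h2 : ∀ i', ((∑ i, Θ i' i * m i : ℤ) : κ) * v'.e i' =
        ∑ i, (m i : κ) * ((Θ i' i : κ) * v'.e i') := by
      intro i'
      push_cast
      rw [Finset.sum_mul]
      apply Finset.sum_congr rfl
      intro i _
      ring
    rw [Finset.sum_congr rfl fun i' _ => h2 i', Finset.sum_comm]
    apply Finset.sum_congr rfl
    intro i _
    rw [← Finset.mul_sum, hw2 i]
  rw [h1, hw1 g hg]
  rfl

/-- the logarithmic form of the combination -/
lemma om_comb {p : ℕ} [Fact p.Prime] [CharP L p] (t : T) {κ : Type u} [Field κ] [Algebra k κ]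
    {φ : M.A t →ₐ[k] κ} (hA : ∀ j, h t j ∈ M.A t) (lr : ι → ZMod p) (n' : I → ℤ) {h' : L}
    (hf : h' = ∑ l, zc p L (lr l) * ((∏ i, M.x t i ^ (n l i - n' i)) * h t l))
    (hA' : h' ∈ M.A t)
    (hle : ∀ l, lr l ≠ 0 → ∀ i, 0 ≤ n l i - n' i ∨ (M.x t i)⁻¹ ∈ M.A t) :
    ∃ Y : ι → M.A t, (∀ l, lr l ≠ 0 → (Y l : L) = ∏ i, M.x t i ^ (n l i - n' i)) ∧
      ∀ v : LT φ (M.x t), om v n' hA' = ∑ l, ((lr l).val : κ) * (φ (Y l) * om v (n l) (hA l)) := by
  classical
  let Y : ι → M.A t := fun l => if hl : lr l ≠ 0 then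
    ⟨∏ i, M.x t i ^ (n l i - n' i), zmem_prod (M.xA t) _ (hle l hl)⟩ else 0
  have hY : ∀ l (hl : lr l ≠ 0), Y l =
      ⟨∏ i, M.x t i ^ (n l i - n' i), zmem_prod (M.xA t) _ (hle l hl)⟩ := fun l hl => dif_pos hl
  refine ⟨Y, fun l hl => by rw [hY l hl], fun v => ?_⟩
  have hsum : (⟨h', hA'⟩ : M.A t) = ∑ l, (((lr l).val : ℕ) : M.A t) * (Y l * ⟨h t l, hA l⟩) := by
    apply Subtype.ext
    change h' = (M.A t).val (∑ l, (((lr l).val : ℕ) : M.A t) * (Y l * ⟨h t l, hA l⟩))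
    rw [map_sum, hf]
    refine Finset.sum_congr rfl fun l _ => ?_
    rw [map_mul, map_natCast, zc_eq]
    by_cases hl : lr l = 0
    · rw [hl, ZMod.val_zero]; simp
    · rw [hY l hl]; rfl
  unfold om
  rw [hsum, map_sum, map_sum, Finset.sum_mul, ← Finset.sum_add_distrib]
  refine Finset.sum_congr rfl fun l _ => ?_
  by_cases hl : lr l = 0
  · rw [hl, ZMod.val_zero]; simp
  · rw [hY l hl]
    exact om_term v (M.xA t) (M.x0 t) (hle l hl) (hA l) (zmem_prod (M.xA t) _ (hle l hl)) _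

end tw

theorem main : WT_nxt.{u} := by
  intro p _ k L K _ _ _ _ _ _ _ _ _ T I T1 I1 ι _ _ _ _ _ M f n a h Λ R hW lam n' h' lr j0 hN hA'
    M1 π Θ ho hC w hw
  classical
  have hlr0 : ∀ t, j0 t ∉ R t := fun t hj => hN.ne t (hN.zero t _ hj)
  have hmemL : lam ∈ Submodule.span (ZMod p) {lam} := Submodule.mem_span_singleton_self lam
  refine ⟨?_, ?_, ?_, ?_, ?_, ?_, ?_, ?_⟩
  · intro j i1
    exact Finset.sum_nonpos fun i _ => mul_nonpos_of_nonneg_of_nonpos (ho.Θ0 i1 i) (hW.n0 j i)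
  · intro t j
    exact ho.le t _ (hW.hA (π t) j)
  · intro t j
    show algebraMap L K (f j) = _
    rw [← mon_pull ho t (n j), ← map_pow, ← map_sub, ← map_mul, ← map_add, ← hW.eq (π t) j]
  · intro t j l
    rcases hW.cmp (π t) j l with h1 | h1
    · exact Or.inl (cmp_pull ho t h1)
    · exact Or.inr (cmp_pull ho t h1)
  · intro μ hμ
    obtain ⟨μ0, hμ0, μ1, hμ1, rfl⟩ := Submodule.mem_sup.mp hμ
    obtain ⟨c, rfl⟩ := Submodule.mem_span_singleton.mp hμ1
    obtain ⟨w0, hw0⟩ := hW.wl μ0 hμ0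
    refine ⟨algebraMap L K w0 + zc p K c * w, ?_⟩
    have e1 : (algebraMap L K w0 + zc p K c * w) ^ p =
        algebraMap L K (w0 ^ p) + zc p K c * w ^ p := by
      rw [add_pow_char, mul_pow, zc_pow, map_pow]
    have e2 : algebraMap L K (w0 ^ p - w0) = ∑ j, zc p K (μ0 j) * algebraMap L K (f j) := by
      rw [hw0, map_sum]
      refine Finset.sum_congr rfl fun j _ => ?_
      rw [map_mul, zc_map]
    have e3 : ∑ j, zc p K ((μ0 + c • lam) j) * algebraMap L K (f j) =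
        ∑ j, zc p K (μ0 j) * algebraMap L K (f j) +
          zc p K c * ∑ j, zc p K (lam j) * algebraMap L K (f j) := by
      rw [Finset.mul_sum, ← Finset.sum_add_distrib]
      refine Finset.sum_congr rfl fun j _ => ?_
      rw [Pi.add_apply, Pi.smul_apply, smul_eq_mul, map_add, map_mul]
      ring
    rw [e1, e3, ← e2, ← hw, map_sub]
    ring
  · intro t μ hμ hμ0
    obtain ⟨μ0, hμ0', μ1, hμ1, rfl⟩ := Submodule.mem_sup.mp hμ
    obtain ⟨c, rfl⟩ := Submodule.mem_span_singleton.mp hμ1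
    have key : ∃ j ∈ insert (j0 (π t)) (R (π t)), (μ0 + c • lam) j ≠ 0 ∧
        ∀ l, (μ0 + c • lam) l ≠ 0 → lec M n (π t) j l := by
      set ν : ι → ZMod p := μ0 + c • (lam - lr (π t)) with hν
      have hνΛ : ν ∈ Λ := Λ.add_mem hμ0' (Λ.smul_mem c (hN.mem (π t)))
      have hμν : ∀ l, (μ0 + c • lam) l = ν l + c * lr (π t) l := by
        intro l
        simp only [hν, Pi.add_apply, Pi.smul_apply, Pi.sub_apply, smul_eq_mul]
        ring
      by_cases hc : c = 0
      · have h1 : ∀ l, (μ0 + c • lam) l = ν l := fun l => by rw [hμν, hc, zero_mul, add_zero]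
        have h2 : ν ≠ 0 := by
          intro h3
          apply hμ0
          funext l
          rw [h1, h3]
        obtain ⟨j, hj, hj1, hj2⟩ := hW.ech (π t) ν hνΛ h2
        refine ⟨j, Set.mem_insert_of_mem _ hj, by rw [h1]; exact hj1, fun l hl => hj2 l ?_⟩
        rw [← h1]; exact hl
      · by_cases hν0 : ν = 0
        · refine ⟨j0 (π t), Set.mem_insert _ _, ?_, fun l hl => ?_⟩
          · rw [hμν, hν0, Pi.zero_apply, zero_add]
            exact mul_ne_zero hc (hN.ne (π t))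
          · rw [hμν, hν0, Pi.zero_apply, zero_add] at hl
            exact hN.le (π t) l (right_ne_zero_of_mul hl)
        · obtain ⟨j1, hj, hj1, hj2⟩ := hW.ech (π t) ν hνΛ hν0
          by_cases h10 : lec M n (π t) j1 (j0 (π t))
          · refine ⟨j1, Set.mem_insert_of_mem _ hj, ?_, fun l hl => ?_⟩
            · rw [hμν, hN.zero (π t) j1 hj, mul_zero, add_zero]; exact hj1
            · by_cases hνl : ν l = 0
              · rw [hμν, hνl, zero_add] at hl
                exact lec_trans h10 (hN.le (π t) l (right_ne_zero_of_mul hl))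
              · exact hj2 l hνl
          · have h01 : lec M n (π t) (j0 (π t)) j1 := by
              rcases hW.cmp (π t) j1 (j0 (π t)) with h3 | h3
              · exact absurd h3 h10
              · exact h3
            have hν00 : ν (j0 (π t)) = 0 := by
              by_contra h4
              exact h10 (hj2 _ h4)
            refine ⟨j0 (π t), Set.mem_insert _ _, ?_, fun l hl => ?_⟩
            · rw [hμν, hν00, zero_add]
              exact mul_ne_zero hc (hN.ne (π t))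
            · by_cases hνl : ν l = 0
              · rw [hμν, hνl, zero_add] at hl
                exact hN.le (π t) l (right_ne_zero_of_mul hl)
              · exact lec_trans h01 (hj2 l hνl)
    obtain ⟨j, hj, hj1, hj2⟩ := key
    exact ⟨j, hj, hj1, fun l hl => cmp_pull ho t (hj2 l hl)⟩
  · intro t lam'
    obtain ⟨ν, hν, hν1⟩ := hW.rep (π t) lam'
    set c : ZMod p := (lam' (j0 (π t)) - ν (j0 (π t))) / lr (π t) (j0 (π t)) with hc
    refine ⟨(ν - c • (lam - lr (π t))) + c • lam, Submodule.mem_sup.mpr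
      ⟨_, Λ.sub_mem hν (Λ.smul_mem c (hN.mem (π t))), _, Submodule.smul_mem _ c hmemL, rfl⟩, ?_⟩
    intro j hj
    have e1 : ((ν - c • (lam - lr (π t))) + c • lam) j = ν j + c * lr (π t) j := by
      simp only [Pi.add_apply, Pi.smul_apply, Pi.sub_apply, smul_eq_mul]
      ring
    rw [e1]
    rcases Set.mem_insert_iff.mp hj with h1 | h1
    · rw [h1, hc, div_mul_cancel₀ _ (hN.ne (π t))]
      ring
    · rw [hN.zero (π t) j h1, mul_zero, add_zero]
      exact hν1 j h1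
  · rintro t κ _ _ φ' j hj ⟨i1, hi1, hi1'⟩
    have hjR : j ∉ R (π t) := fun h1 => hj (Set.mem_insert_of_mem _ h1)
    have hj0 : j ≠ j0 (π t) := fun h1 => hj (h1 ▸ Set.mem_insert _ _)
    have : CharP k p := (algebraMap k L).charP (algebraMap k L).injective p
    have : CharP κ p := charP_of_injective_algebraMap (algebraMap k κ).injective p
    -- a pole of `n j` at `φ`
    obtain ⟨i, hi, hi'⟩ : ∃ i, n j i < 0 ∧
        (φ'.comp (ci (ho.le t))) ⟨M.x (π t) i, M.xA (π t) i⟩ = 0 := by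
      obtain ⟨i, _, hi⟩ := Finset.exists_lt_of_sum_lt (s := Finset.univ)
        (f := fun i => Θ i1 i * n j i) (g := fun _ => (0 : ℤ)) (by simpa using hi1)
      have hn1 : n j i < 0 := by
        rcases lt_or_eq_of_le (hW.n0 j i) with h1 | h1
        · exact h1
        · rw [h1, mul_zero] at hi
          exact absurd hi (lt_irrefl _)
      have hΘ1 : 0 < Θ i1 i := by
        rcases lt_or_eq_of_le (ho.Θ0 i1 i) with h1 | h1
        · exact h1
        · rw [← h1, zero_mul] at hi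
          exact absurd hi (lt_irrefl _)
      exact ⟨i, hn1, zero_pull ho t φ' i1 i hΘ1 hi1'⟩
    obtain ⟨vj, hvj1, hvj2⟩ := hW.ln (π t) κ (φ'.comp (ci (ho.le t))) j hjR ⟨i, hi, hi'⟩
    -- the vector to be lifted
    obtain ⟨v, hv1, hv2, hv3⟩ : ∃ v : LT (φ'.comp (ci (ho.le t))) (M.x (π t)),
        om v (n j) (hW.hA (π t) j) ≠ 0 ∧
        (∀ l, l ∉ insert (j0 (π t)) (R (π t)) → l ≠ j → om v (n l) (hW.hA (π t) l) = 0) ∧
        ((∃ i, n' i < 0 ∧ φ' ⟨algebraMap L K (M.x (π t) i), ho.le t _ (M.xA (π t) i)⟩ = 0) →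
          om v n' (hA' (π t)) = 0) := by
      by_cases hpole : ∃ i, n' i < 0 ∧
          φ' ⟨algebraMap L K (M.x (π t) i), ho.le t _ (M.xA (π t) i)⟩ = 0
      · obtain ⟨i', hi', hi''⟩ := hpole
        have hnotinv : (M.x (π t) i')⁻¹ ∉ M.A (π t) := by
          intro h1
          have h2 : (φ'.comp (ci (ho.le t))) ⟨M.x (π t) i', M.xA (π t) i'⟩ *
              (φ'.comp (ci (ho.le t))) ⟨(M.x (π t) i')⁻¹, h1⟩ = 1 := by
            rw [← map_mul, ← map_one (φ'.comp (ci (ho.le t)))]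
            congr 1
            apply Subtype.ext
            exact mul_inv_cancel₀ (M.x0 (π t) i')
          have h3 : (φ'.comp (ci (ho.le t))) ⟨M.x (π t) i', M.xA (π t) i'⟩ = 0 := hi''
          rw [h3, zero_mul] at h2
          exact zero_ne_one h2
        have hneg : n (j0 (π t)) i' < 0 := by
          rcases hN.eqn (π t) i' with h1 | h1
          · rw [← h1]; exact hi'
          · exact absurd h1 hnotinv
        obtain ⟨v0, hv01, hv02⟩ := hW.ln (π t) κ (φ'.comp (ci (ho.le t))) (j0 (π t))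
          (hlr0 (π t)) ⟨i', hneg, hi''⟩
        have hle : ∀ l, lr (π t) l ≠ 0 → ∀ i, 0 ≤ n l i - n' i ∨ (M.x (π t) i)⁻¹ ∈ M.A (π t) := by
          intro l hl i
          rcases hN.eqn (π t) i with h1 | h1
          · rcases hN.le (π t) l hl i with h2 | h2
            · left; omega
            · exact Or.inr h2
          · exact Or.inr h1
        obtain ⟨Y, hY, hom⟩ := om_comb (φ := φ'.comp (ci (ho.le t))) (π t) (hW.hA (π t))
          (lr (π t)) n' (hN.hf (π t)) (hA' (π t)) hle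
        have hYu : (φ'.comp (ci (ho.le t))) (Y (j0 (π t))) ≠ 0 := by
          have hinv : ∀ i, 0 ≤ n' i - n (j0 (π t)) i ∨ (M.x (π t) i)⁻¹ ∈ M.A (π t) := by
            intro i
            rcases hN.eqn (π t) i with h1 | h1
            · left; omega
            · exact Or.inr h1
          have h1 : Y (j0 (π t)) * (⟨∏ i, M.x (π t) i ^ (n' i - n (j0 (π t)) i),
              zmem_prod (M.xA (π t)) _ hinv⟩ : M.A (π t)) = 1 := by
            apply Subtype.ext
            show (Y (j0 (π t)) : L) * ∏ i, M.x (π t) i ^ (n' i - n (j0 (π t)) i) = 1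
            rw [hY _ (hN.ne (π t)), ← Finset.prod_mul_distrib]
            refine Finset.prod_eq_one fun i _ => ?_
            rw [← zpow_add₀ (M.x0 (π t) i)]
            have : n (j0 (π t)) i - n' i + (n' i - n (j0 (π t)) i) = 0 := by ring
            rw [this, zpow_zero]
          have h2 := congrArg (φ'.comp (ci (ho.le t))) h1
          rw [map_mul, map_one] at h2
          exact left_ne_zero_of_mul_eq_one h2
        have hv0n : om v0 n' (hA' (π t)) ≠ 0 := by
          rw [hom v0, Finset.sum_eq_single (j0 (π t))]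
          · refine mul_ne_zero ?_ (mul_ne_zero hYu hv01)
            intro h1
            rw [CharP.cast_eq_zero_iff κ p] at h1
            have h2 := ZMod.val_lt (lr (π t) (j0 (π t)))
            have h3 : (lr (π t) (j0 (π t))).val ≠ 0 := by
              rw [Ne, ZMod.val_eq_zero]; exact hN.ne (π t)
            exact h3 (Nat.eq_zero_of_dvd_of_lt h1 h2)
          · intro l _ hl
            by_cases hlR : l ∈ R (π t)
            · rw [hN.zero (π t) l hlR, ZMod.val_zero]; simp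
            · rw [hv02 l hlR hl]; simp
          · intro h1
            exact absurd (Finset.mem_univ _) h1
        set s : κ := om vj n' (hA' (π t)) / om v0 n' (hA' (π t)) with hs
        refine ⟨lcomb 1 (-s) vj v0, ?_, ?_, ?_⟩
        · rw [om_lcomb, hv02 j hjR hj0]
          simpa using hvj1
        · intro l hl hlj
          have hlR : l ∉ R (π t) := fun h1 => hl (Set.mem_insert_of_mem _ h1)
          have hl0 : l ≠ j0 (π t) := fun h1 => hl (h1 ▸ Set.mem_insert _ _)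
          rw [om_lcomb, hv02 l hlR hl0, hvj2 l hlR hlj]
          simp
        · intro _
          rw [om_lcomb, hs]
          field_simp
          ring
      · refine ⟨vj, hvj1, fun l hl hlj => hvj2 l (fun h1 => hl (Set.mem_insert_of_mem _ h1)) hlj,
          fun h1 => absurd h1 hpole⟩
    obtain ⟨v', hw1, hw2⟩ := hC t κ φ' v hv3
    refine ⟨v', ?_, ?_⟩
    · rw [om_pull ho t hw1 hw2 (n j) (hW.hA (π t) j)]
      exact hv1
    · intro l hl hlj
      rw [om_pull ho t hw1 hw2 (n l) (hW.hA (π t) l)]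
      exact hv2 l hl hlj

end Pool.Agent.W32.WT
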