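import Pool.Agent.W312.WT.StmP

/-!
# Project WT (MP_df8bb0_lc): polynomial time of the cost, of joining entries and of the step
-/

set_option autoImplicit false

namespace Pool.Agent.W32.WT

open Pool.Agent.NPC Pool.Agent.W312.WT

section

variable {α : Type} [TEnc α]

theorem poly_tc {x : α → Jb} {t : α → ℕ} (hx : NPC.Poly x) (ht : NPC.Poly t) :
    Poly (fun a => tc (x a) (t a)) :=
  NPC.Poly.mul (NPC.Poly.fst hx) (NPC.Poly.sub ht (NPC.Poly.fst (NPC.Poly.snd hx)))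

theorem poly_inR {h₁ h₂ : α → ℕ} {x : α → Jb} (h1 : NPC.Poly h₁) (h2 : NPC.Poly h₂) (hx : NPC.Poly x) :
    Poly (fun a => inR (h₁ a) (h₂ a) (x a)) :=
  NPC.Poly.and (NPC.Poly.decide_le h1 (NPC.Poly.fst (NPC.Poly.snd hx)))
    (NPC.Poly.decide_lt (NPC.Poly.fst (NPC.Poly.snd hx)) h2)

theorem poly_joinE {p : α → ℕ} {x : α → Jb} {e f : α → Ent} (hp : NPC.Poly p) (hx : NPC.Poly x)
    (he : NPC.Poly e) (hf : NPC.Poly f) : NPC.Poly (fun a => joinE (p a) (x a) (e a) (f a)) := by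
  have e11 : NPC.Poly (fun a => (e a).1.1.1) := NPC.Poly.fst (NPC.Poly.fst (NPC.Poly.fst he))
  have e12 : NPC.Poly (fun a => (e a).1.1.2) := NPC.Poly.snd (NPC.Poly.fst (NPC.Poly.fst he))
  have e21 : NPC.Poly (fun a => (e a).1.2.1.1) := NPC.Poly.fst (NPC.Poly.fst (NPC.Poly.snd (NPC.Poly.fst he)))
  have e22 : NPC.Poly (fun a => (e a).1.2.1.2) := NPC.Poly.snd (NPC.Poly.fst (NPC.Poly.snd (NPC.Poly.fst he)))
  have e31 : NPC.Poly (fun a => (e a).1.2.2.1) := NPC.Poly.fst (NPC.Poly.snd (NPC.Poly.snd (NPC.Poly.fst he)))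
  have e32 : NPC.Poly (fun a => (e a).1.2.2.2) := NPC.Poly.snd (NPC.Poly.snd (NPC.Poly.snd (NPC.Poly.fst he)))
  have f11 : NPC.Poly (fun a => (f a).1.1.1) := NPC.Poly.fst (NPC.Poly.fst (NPC.Poly.fst hf))
  have f12 : NPC.Poly (fun a => (f a).1.1.2) := NPC.Poly.snd (NPC.Poly.fst (NPC.Poly.fst hf))
  have f21 : NPC.Poly (fun a => (f a).1.2.1.1) := NPC.Poly.fst (NPC.Poly.fst (NPC.Poly.snd (NPC.Poly.fst hf)))
  have f22 : NPC.Poly (fun a => (f a).1.2.1.2) := NPC.Poly.snd (NPC.Poly.fst (NPC.Poly.snd (NPC.Poly.fst hf)))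
  have f31 : NPC.Poly (fun a => (f a).1.2.2.1) := NPC.Poly.fst (NPC.Poly.snd (NPC.Poly.snd (NPC.Poly.fst hf)))
  have f32 : NPC.Poly (fun a => (f a).1.2.2.2) := NPC.Poly.snd (NPC.Poly.snd (NPC.Poly.snd (NPC.Poly.fst hf)))
  have e4 : NPC.Poly (fun a => (e a).2) := NPC.Poly.snd he
  have f4 : NPC.Poly (fun a => (f a).2) := NPC.Poly.snd hf
  unfold joinE
  refine NPC.Poly.ite ?_ ?_ (NPC.Poly.const [])
  · refine NPC.Poly.decide_and (NPC.Poly.decide_le e11 e12) ?_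
    refine NPC.Poly.decide_and (NPC.Poly.decide_le f11 f12) ?_
    refine NPC.Poly.decide_and (NPC.Poly.decide_eq e12 f11) ?_
    refine NPC.Poly.decide_and (NPC.Poly.decide_eq f21 (NPC.Poly.succ e22)) ?_
    refine NPC.Poly.decide_and (NPC.Poly.decide_le e32 f31) ?_
    refine NPC.Poly.decide_and (NPC.Poly.decide_le f31 (NPC.Poly.add e32 hp)) ?_
    refine NPC.Poly.decide_and (NPC.Poly.decide_le (NPC.Poly.mul (NPC.Poly.succ e22) hp) (NPC.Poly.add e32 f31)) ?_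
    exact NPC.Poly.decide_bool (poly_inR e11 f12 hx)
  · exact NPC.Poly.cons (NPC.Poly.pair (NPC.Poly.pair (NPC.Poly.pair e11 f12) (NPC.Poly.pair (NPC.Poly.pair e21 f22)
      (NPC.Poly.pair e31 f32))) (NPC.Poly.append e4 (NPC.Poly.cons (NPC.Poly.pair hx f31) f4))) (NPC.Poly.const [])

end

theorem proof_PCst : Pool.Agent.W312.WT.PCst :=
  NPC.Poly.sum (NPC.Poly.map NPC.Poly.id (l := fun l : List (Jb × ℕ) => l)
    (F := fun _ (e : Jb × ℕ) => tc e.1 e.2)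
    (poly_tc (NPC.Poly.fst (NPC.Poly.snd NPC.Poly.id)) (NPC.Poly.snd (NPC.Poly.snd NPC.Poly.id))))

theorem proof_PJoin : Pool.Agent.W312.WT.PJoin :=
  poly_joinE (NPC.Poly.fst NPC.Poly.id) (NPC.Poly.fst (NPC.Poly.snd NPC.Poly.id))
    (NPC.Poly.fst (NPC.Poly.snd (NPC.Poly.snd NPC.Poly.id))) (NPC.Poly.snd (NPC.Poly.snd (NPC.Poly.snd NPC.Poly.id)))

theorem proof_PStep : Pool.Agent.W312.WT.PStep := by
  intro _
  unfold stepE
  refine NPC.Poly.append ?_ ?_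
  · refine NPC.Poly.filter (l := fun q : ℕ × Jb × List Ent => q.2.2)
      (p := fun q e => !(inR e.1.1.1 e.1.1.2 q.2.1)) (NPC.Poly.snd (NPC.Poly.snd NPC.Poly.id)) ?_
    exact NPC.Poly.not (poly_inR (NPC.Poly.fst (NPC.Poly.fst (NPC.Poly.fst (NPC.Poly.snd NPC.Poly.id))))
      (NPC.Poly.snd (NPC.Poly.fst (NPC.Poly.fst (NPC.Poly.snd NPC.Poly.id)))) (NPC.Poly.fst (NPC.Poly.snd (NPC.Poly.fst NPC.Poly.id))))
  · refine NPC.Poly.flatMap (l := fun q : ℕ × Jb × List Ent => q.2.2)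
      (F := fun q e => q.2.2.flatMap fun f => joinE q.1 q.2.1 e f)
      (NPC.Poly.snd (NPC.Poly.snd NPC.Poly.id)) ?_
    refine NPC.Poly.flatMap (l := fun q : (ℕ × Jb × List Ent) × Ent => q.1.2.2)
      (F := fun q f => joinE q.1.1 q.1.2.1 q.2 f) (NPC.Poly.snd (NPC.Poly.snd (NPC.Poly.fst NPC.Poly.id))) ?_
    exact poly_joinE (NPC.Poly.fst (NPC.Poly.fst (NPC.Poly.fst NPC.Poly.id)))
      (NPC.Poly.fst (NPC.Poly.snd (NPC.Poly.fst (NPC.Poly.fst NPC.Poly.id)))) (NPC.Poly.snd (NPC.Poly.fst NPC.Poly.id))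
      (NPC.Poly.snd NPC.Poly.id)

end Pool.Agent.W32.WT
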